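import Mathlib
import Pool.Agent.H47.WT.Defs
import Pool.Agent.H47.WT.Defs2

set_option autoImplicit false

/-!
# Crew WT, part N3: a free group with vanishing first cohomology in the group ring is trivial
-/

namespace Pool.Agent.H47.WT

private theorem mapDomain_mul_mul {F : Type} [Group F] (g h : F) (x : F →₀ ℤ) :
    (x.mapDomain (fun y => h • y)).mapDomain (fun y => g • y) =
      x.mapDomain (fun y => (g * h) • y) := by
  rw [← Finsupp.mapDomain_comp]
  congr 1
  funext y
  simp [mul_assoc]

private theorem mapDomain_one_smul {F : Type} [Group F] (x : F →₀ ℤ) :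
    x.mapDomain (fun y => (1 : F) • y) = x := by
  have : (fun y : F => (1 : F) • y) = id := by funext y; simp
  rw [this, Finsupp.mapDomain_id]

/-- the affine permutation `x ↦ v + g x` -/
private noncomputable def affN3 {F : Type} [Group F] (g : F) (v : F →₀ ℤ) :
    Equiv.Perm (F →₀ ℤ) where
  toFun x := v + x.mapDomain (fun y => g • y)
  invFun x := (x - v).mapDomain (fun y => g⁻¹ • y)
  left_inv x := by
    simp only [add_sub_cancel_left]
    rw [mapDomain_mul_mul, inv_mul_cancel, mapDomain_one_smul]
  right_inv x := by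
    simp only
    rw [mapDomain_mul_mul, mul_inv_cancel, mapDomain_one_smul, add_sub_cancel]

/-- N3 -/
theorem free_van (F : Type) [Group F] [IsFreeGroup F] (h : Van F F) : Subsingleton F := by
  classical
  set b := IsFreeGroup.basis F with hb
  have hι : IsEmpty (IsFreeGroup.Generators F) := by
    by_contra hne
    rw [not_isEmpty_iff] at hne
    obtain ⟨i⟩ := hne
    set Φ : F →* Equiv.Perm (F →₀ ℤ) := b.lift (fun j => affN3 (b j) (Finsupp.single 1 1)) with hΦ
    have hΦb : ∀ j, Φ (b j) = affN3 (b j) (Finsupp.single 1 1) := fun j => by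
      rw [hΦ, FreeGroupBasis.lift_apply_apply, FreeGroupBasis.repr_apply_coe,
        FreeGroup.lift_apply_of]
    have key : ∀ g : F, ∀ x : F →₀ ℤ, Φ g x = Φ g 0 + x.mapDomain (fun y => g • y) := by
      have hgen : ∀ j, ∀ x : F →₀ ℤ, Φ (b j) x = Φ (b j) 0 + x.mapDomain (fun y => b j • y) := by
        intro j x
        rw [hΦb]
        show Finsupp.single 1 1 + x.mapDomain (fun y => b j • y) =
          (Finsupp.single 1 1 + (0 : F →₀ ℤ).mapDomain (fun y => b j • y)) +
            x.mapDomain (fun y => b j • y)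
        rw [Finsupp.mapDomain_zero, add_zero]
      have hinv : ∀ g : F, (∀ x : F →₀ ℤ, Φ g x = Φ g 0 + x.mapDomain (fun y => g • y)) →
          ∀ x : F →₀ ℤ, Φ g⁻¹ x = Φ g⁻¹ 0 + x.mapDomain (fun y => g⁻¹ • y) := by
        intro g hg
        have h1 : ∀ x : F →₀ ℤ, Φ g⁻¹ x = (x - Φ g 0).mapDomain (fun y => g⁻¹ • y) := by
          intro x
          have h2 : Φ g (Φ g⁻¹ x) = x := by
            rw [← Equiv.Perm.mul_apply, ← map_mul, mul_inv_cancel, map_one, Equiv.Perm.one_apply]
          have h3 := hg (Φ g⁻¹ x)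
          rw [h2] at h3
          have h4 : x - Φ g 0 = (Φ g⁻¹ x).mapDomain (fun y => g • y) := by
            rw [sub_eq_iff_eq_add, add_comm]; exact h3
          rw [h4, mapDomain_mul_mul, inv_mul_cancel, mapDomain_one_smul]
        intro x
        rw [h1 x, h1 0, ← Finsupp.mapDomain_add]
        congr 1
        abel
      have hmul : ∀ g k : F, (∀ x : F →₀ ℤ, Φ g x = Φ g 0 + x.mapDomain (fun y => g • y)) →
          (∀ x : F →₀ ℤ, Φ k x = Φ k 0 + x.mapDomain (fun y => k • y)) →
          ∀ x : F →₀ ℤ, Φ (g * k) x = Φ (g * k) 0 + x.mapDomain (fun y => (g * k) • y) := by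
        intro g k hg hk x
        rw [map_mul, Equiv.Perm.mul_apply, Equiv.Perm.mul_apply, hg (Φ k x), hk x,
          Finsupp.mapDomain_add, mapDomain_mul_mul, hg (Φ k 0)]
        abel
      have hone : ∀ x : F →₀ ℤ, Φ 1 x = Φ 1 0 + x.mapDomain (fun y => (1 : F) • y) := by
        intro x
        rw [map_one, mapDomain_one_smul, Equiv.Perm.one_apply, Equiv.Perm.one_apply, zero_add]
      have hw : ∀ w : FreeGroup (IsFreeGroup.Generators F), ∀ x : F →₀ ℤ,
          Φ (b.repr.symm w) x = Φ (b.repr.symm w) 0 +
            x.mapDomain (fun y => (b.repr.symm w) • y) := by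
        intro w
        induction w using FreeGroup.induction_on with
        | C1 => rw [map_one]; exact hone
        | of j => exact hgen j
        | inv_of j hj => rw [map_inv]; exact hinv _ hj
        | mul u v hu hv => rw [map_mul]; exact hmul _ _ hu hv
      intro g
      have := hw (b.repr g)
      rw [MulEquiv.symm_apply_apply] at this
      exact this
    have hcoc : Coc (X := F) (fun g => Φ g 0) := by
      intro g k
      show Φ (g * k) 0 = Φ g 0 + (Φ k 0).mapDomain (fun x => g • x)
      rw [map_mul, Equiv.Perm.mul_apply]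
      exact key g (Φ k 0)
    obtain ⟨y, hy⟩ := h _ hcoc
    have h1 : Φ (b i) 0 = y.mapDomain (fun z => b i • z) - y := hy (b i)
    rw [hΦb] at h1
    have h2 : affN3 (b i) (Finsupp.single 1 1) (0 : F →₀ ℤ) = Finsupp.single 1 1 := by
      show Finsupp.single 1 1 + (0 : F →₀ ℤ).mapDomain (fun y => b i • y) = _
      rw [Finsupp.mapDomain_zero, add_zero]
    rw [h2] at h1
    have hs : ∀ x : F →₀ ℤ, (x.mapDomain (fun y => b i • y)).sum (fun _ c => c) =
        x.sum (fun _ c => c) := by
      intro x
      exact Finsupp.sum_mapDomain_index (fun _ => rfl) (fun _ _ _ => rfl)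
    have h3 : (Finsupp.single (1 : F) (1 : ℤ)).sum (fun _ c => c) =
        (y.mapDomain (fun z => b i • z) - y).sum (fun _ c => c) :=
      congrArg (fun x : F →₀ ℤ => x.sum (fun _ c => c)) h1
    rw [Finsupp.sum_single_index rfl, Finsupp.sum_sub_index (fun _ _ _ => rfl), hs, sub_self] at h3
    exact one_ne_zero h3
  exact b.repr.toEquiv.subsingleton

end Pool.Agent.H47.WT
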